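import Pool.Agent.helper70.M8.D
import Pool.Agent.helper70.M10.Defs

set_option autoImplicit false

/-!
# M10-B: the pencil of directions (port of M8/D)
-/

open MvPolynomial Set Filter Topology

namespace Oct.N

open Oct

open Oct.DirAux (th nrm_pos th_mul th_mul' th_smul th_lt of_th_eq abs_th_le th_pos_axis th_neg_axis
  natAbs_pos' scal_pos')
namespace DA
end DA
open DA

section D
variable {ct : Cert} (h : Comb ct)
include h

theorem col_pos {i : ℕ} (hi : i < ct.n) : ct.col i ∈ ct.cols := by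
  have hi' : i < ct.cols.length := hi
  unfold Cert.col
  rw [List.getD_eq_getElem _ _ hi']
  exact List.getElem_mem hi'

theorem DA.det_pos {i : ℕ} (hi : i < ct.n) :
    0 < ((ct.col i).ch.x1 : ℝ) * (ct.col i).ch.y0 - (ct.col i).ch.x0 * (ct.col i).ch.y1 := by
  have h1 : 0 < (ct.col i).x1 * (ct.col i).y0 - (ct.col i).x0 * (ct.col i).y1 :=
    (h.colR _ (col_pos h hi)).1
  show 0 < ((ct.col i).x1 : ℝ) * ((ct.col i).y0 : ℝ) - ((ct.col i).x0 : ℝ) * ((ct.col i).y1 : ℝ)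
  exact_mod_cast h1

theorem DA.a_lt_b {i : ℕ} (hi : i < ct.n) : ((ct.col i).a : ℝ) < (ct.col i).b := by
  have h2 : (ct.col i).a < (ct.col i).b := by unfold Column.a Column.b; omega
  exact_mod_cast h2

omit h in
theorem DA.vx_cast (c : Chart) (t : ℤ) : c.vx (t : ℝ) = ((c.vxZ t : ℤ) : ℝ) := by
  unfold Chart.vx Chart.vxZ; push_cast; ring

omit h in
theorem DA.vy_cast (c : Chart) (t : ℤ) : c.vy (t : ℝ) = ((c.vyZ t : ℤ) : ℝ) := by
  unfold Chart.vy Chart.vyZ; push_cast; ring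

theorem DA.v_ne {i : ℕ} (hi : i < ct.n) (t : ℝ) :
    ¬ ((ct.col i).ch.vx t = 0 ∧ (ct.col i).ch.vy t = 0) := by
  rintro ⟨h1, h2⟩
  have h3 := det_pos h hi
  unfold Chart.vx at h1
  unfold Chart.vy at h2
  have : ((ct.col i).ch.x1 : ℝ) * (ct.col i).ch.y0 - (ct.col i).ch.x0 * (ct.col i).ch.y1 = 0 := by
    linear_combination ((ct.col i).ch.x1 : ℝ) * h2 - ((ct.col i).ch.y1 : ℝ) * h1
  linarith

theorem DA.vZ_ne {i : ℕ} (hi : i < ct.n) (t : ℤ) :
    ¬ ((ct.col i).ch.vxZ t = 0 ∧ (ct.col i).ch.vyZ t = 0) := by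
  rintro ⟨h1, h2⟩
  refine v_ne h hi (t : ℝ) ⟨?_, ?_⟩
  · rw [vx_cast, h1, Int.cast_zero]
  · rw [vy_cast, h2, Int.cast_zero]

theorem scal_pos {i : ℕ} (hi : i + 1 < ct.n) :
    0 < ((ct.col i).scal (ct.col (i + 1))).1 ∧ 0 < ((ct.col i).scal (ct.col (i + 1))).2 :=
  scal_pos' (vZ_ne h (by omega) _) (vZ_ne h hi _)

theorem scalS_pos : 0 < ((ct.col (ct.n - 1)).scalS (ct.col 0)).1 ∧
    0 < ((ct.col (ct.n - 1)).scalS (ct.col 0)).2 := by
  have hn := h.pos_n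
  refine scal_pos' (vZ_ne h (by omega) _) ?_
  rintro ⟨h1, h2⟩
  exact vZ_ne h hn _ ⟨neg_eq_zero.1 h1, neg_eq_zero.1 h2⟩

theorem scalS_eq :
    ((ct.col (ct.n - 1)).scalS (ct.col 0)).1 * (ct.col (ct.n - 1)).ch.vxZ (ct.col (ct.n - 1)).b =
      -(((ct.col (ct.n - 1)).scalS (ct.col 0)).2 * (ct.col 0).ch.vxZ (ct.col 0).a) ∧
    ((ct.col (ct.n - 1)).scalS (ct.col 0)).1 * (ct.col (ct.n - 1)).ch.vyZ (ct.col (ct.n - 1)).b =
      -(((ct.col (ct.n - 1)).scalS (ct.col 0)).2 * (ct.col 0).ch.vyZ (ct.col 0).a) := by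
  obtain ⟨f1, f2⟩ := h.first
  obtain ⟨l1, l2⟩ := h.last
  constructor
  · unfold Column.scalS Oct.scal
    rw [f1, l1]
    generalize (ct.col 0).ch.vxZ (ct.col 0).a = X' at f2 ⊢
    generalize (ct.col (ct.n - 1)).ch.vxZ (ct.col (ct.n - 1)).b = X at l2 ⊢
    split_ifs with h1
    · simp only [one_mul]; exact h1.1
    · have e1 : (((-X').natAbs + (-(0 : ℤ)).natAbs : ℕ) : ℤ) = -X' := by
        simp only [neg_zero, Int.natAbs_zero, add_zero]; omega
      have e2 : ((X.natAbs + (0 : ℤ).natAbs : ℕ) : ℤ) = X := by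
        simp only [Int.natAbs_zero, add_zero]; omega
      simp only [e1, e2]
      ring
  · rw [f1, l1]; simp

theorem vy_nonneg {i : ℕ} (hi : i < ct.n) {t : ℝ} (ht : t ∈ Icc ((ct.col i).a : ℝ) (ct.col i).b) :
    0 ≤ (ct.col i).ch.vy t ∧ ¬ ((ct.col i).ch.vx t = 0 ∧ (ct.col i).ch.vy t = 0) := by
  refine ⟨?_, v_ne h hi t⟩
  have hh := h.colR _ (col_pos h hi)
  have ha : (0 : ℝ) ≤ (ct.col i).ch.vy ((ct.col i).a : ℝ) := by
    rw [vy_cast]; exact_mod_cast hh.2.1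
  have hb : (0 : ℝ) ≤ (ct.col i).ch.vy ((ct.col i).b : ℝ) := by
    rw [vy_cast]; exact_mod_cast hh.2.2.1
  have hab := a_lt_b h hi
  unfold Chart.vy at ha hb ⊢
  obtain ⟨h1, h2⟩ := ht
  generalize ((ct.col i).a : ℝ) = a at *
  generalize ((ct.col i).b : ℝ) = b at *
  have key : (b - a) * (((ct.col i).ch.y0 : ℝ) + (ct.col i).ch.y1 * t) =
      (b - t) * (((ct.col i).ch.y0 : ℝ) + (ct.col i).ch.y1 * a) +
      (t - a) * (((ct.col i).ch.y0 : ℝ) + (ct.col i).ch.y1 * b) := by ring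
  have h3 : 0 ≤ (b - a) * (((ct.col i).ch.y0 : ℝ) + (ct.col i).ch.y1 * t) := by
    rw [key]
    exact add_nonneg (mul_nonneg (by linarith) ha) (mul_nonneg (by linarith) hb)
  exact nonneg_of_mul_nonneg_right h3 (by linarith)

omit h in
/-- the parameter along a column -/
noncomputable def DA.tc (ct : Cert) (i : ℕ) (t : ℝ) : ℝ :=
  th ((ct.col i).ch.vx t) ((ct.col i).ch.vy t)

theorem DA.tc_lt {i : ℕ} (hi : i < ct.n) {t t' : ℝ}
    (ht : t ∈ Icc ((ct.col i).a : ℝ) (ct.col i).b)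
    (ht' : t' ∈ Icc ((ct.col i).a : ℝ) (ct.col i).b) (htt : t < t') : tc ct i t < tc ct i t' := by
  have h1 := vy_nonneg h hi ht
  have h2 := vy_nonneg h hi ht'
  refine th_lt h1.1 h2.1 h1.2 h2.2 ?_
  have h3 := det_pos h hi
  have h4 : (ct.col i).ch.vx t' * (ct.col i).ch.vy t - (ct.col i).ch.vx t * (ct.col i).ch.vy t' =
      (((ct.col i).ch.x1 : ℝ) * (ct.col i).ch.y0 - (ct.col i).ch.x0 * (ct.col i).ch.y1) *
        (t' - t) := by
    unfold Chart.vx Chart.vy; ring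
  rw [h4]
  exact mul_pos h3 (by linarith)

theorem DA.tc_inj {i : ℕ} (hi : i < ct.n) {t t' : ℝ}
    (ht : t ∈ Icc ((ct.col i).a : ℝ) (ct.col i).b)
    (ht' : t' ∈ Icc ((ct.col i).a : ℝ) (ct.col i).b) (he : tc ct i t = tc ct i t') : t = t' := by
  rcases lt_trichotomy t t' with h1 | h1 | h1
  · exact absurd he (tc_lt h hi ht ht' h1).ne
  · exact h1
  · exact absurd he (tc_lt h hi ht' ht h1).ne'

theorem DA.tc_le {i : ℕ} (hi : i < ct.n) {t t' : ℝ}
    (ht : t ∈ Icc ((ct.col i).a : ℝ) (ct.col i).b)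
    (ht' : t' ∈ Icc ((ct.col i).a : ℝ) (ct.col i).b) (htt : t ≤ t') : tc ct i t ≤ tc ct i t' := by
  rcases eq_or_lt_of_le htt with h1 | h1
  · rw [h1]
  · exact (tc_lt h hi ht ht' h1).le

theorem DA.tc_cont {i : ℕ} (hi : i < ct.n) :
    ContinuousOn (tc ct i) (Icc ((ct.col i).a : ℝ) (ct.col i).b) := by
  have c1 : Continuous (fun t : ℝ => (ct.col i).ch.vx t) := by unfold Chart.vx; fun_prop
  have c2 : Continuous (fun t : ℝ => (ct.col i).ch.vy t) := by unfold Chart.vy; fun_prop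
  unfold tc th
  refine ContinuousOn.div c1.continuousOn (c1.abs.add c2).continuousOn ?_
  intro t ht
  have h1 := vy_nonneg h hi ht
  exact (nrm_pos h1.1 h1.2).ne'

theorem DA.tc_chain {i : ℕ} (hi : i + 1 < ct.n) :
    tc ct i ((ct.col i).b : ℝ) = tc ct (i + 1) ((ct.col (i + 1)).a : ℝ) := by
  have hs := scal_pos h hi
  obtain ⟨c1, c2⟩ := h.chain i hi
  have s1 : (0 : ℝ) < (((ct.col i).scal (ct.col (i + 1))).1 : ℝ) := by exact_mod_cast hs.1
  have s2 : (0 : ℝ) < (((ct.col i).scal (ct.col (i + 1))).2 : ℝ) := by exact_mod_cast hs.2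
  unfold tc
  rw [← th_smul (x := (ct.col i).ch.vx ((ct.col i).b : ℝ)) s1,
    ← th_smul (x := (ct.col (i + 1)).ch.vx ((ct.col (i + 1)).a : ℝ)) s2]
  rw [vx_cast, vy_cast, vx_cast, vy_cast]
  congr 1
  · exact_mod_cast c1
  · exact_mod_cast c2

theorem DA.tc_first : tc ct 0 ((ct.col 0).a : ℝ) = -1 := by
  obtain ⟨f1, f2⟩ := h.first
  unfold tc
  rw [vx_cast, vy_cast, f1, Int.cast_zero]
  exact th_neg_axis (by exact_mod_cast f2)

theorem DA.tc_last : tc ct (ct.n - 1) ((ct.col (ct.n - 1)).b : ℝ) = 1 := by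
  obtain ⟨f1, f2⟩ := h.last
  unfold tc
  rw [vx_cast, vy_cast, f1, Int.cast_zero]
  exact th_pos_axis (by exact_mod_cast f2)

theorem DA.a_mem {i : ℕ} (hi : i < ct.n) :
    ((ct.col i).a : ℝ) ∈ Icc ((ct.col i).a : ℝ) (ct.col i).b :=
  ⟨le_refl _, (a_lt_b h hi).le⟩

theorem DA.b_mem {i : ℕ} (hi : i < ct.n) :
    ((ct.col i).b : ℝ) ∈ Icc ((ct.col i).a : ℝ) (ct.col i).b :=
  ⟨(a_lt_b h hi).le, le_refl _⟩

theorem DA.tc_ab {i : ℕ} (hi : i < ct.n) :
    tc ct i ((ct.col i).a : ℝ) < tc ct i ((ct.col i).b : ℝ) :=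
  tc_lt h hi (a_mem h hi) (b_mem h hi) (a_lt_b h hi)

/-- for `i < j` the column `i` is before the column `j` -/
theorem DA.tc_far {i : ℕ} (k : ℕ) (hk : i + 1 + k < ct.n) :
    tc ct i ((ct.col i).b : ℝ) ≤ tc ct (i + 1 + k) ((ct.col (i + 1 + k)).a : ℝ) ∧
    (0 < k → tc ct i ((ct.col i).b : ℝ) < tc ct (i + 1 + k) ((ct.col (i + 1 + k)).a : ℝ)) := by
  induction k with
  | zero =>
    refine ⟨?_, fun h0 => absurd h0 (lt_irrefl 0)⟩
    exact (tc_chain h (i := i) (by omega)).le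
  | succ k ih =>
    have ih' := (ih (by omega)).1
    have h1 := tc_ab h (i := i + 1 + k) (by omega)
    have h2 := tc_chain h (i := i + 1 + k) (by omega)
    have h3 : tc ct i ((ct.col i).b : ℝ) <
        tc ct (i + 1 + k + 1) ((ct.col (i + 1 + k + 1)).a : ℝ) := by
      rw [← h2]; exact lt_of_le_of_lt ih' h1
    exact ⟨h3.le, fun _ => h3⟩

theorem sector_cover {x y : ℝ} (hy : 0 ≤ y) (hxy : ¬ (x = 0 ∧ y = 0)) :
    ∃ i < ct.n, ∃ t ∈ Icc ((ct.col i).a : ℝ) (ct.col i).b, ∃ r > 0,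
      x = r * (ct.col i).ch.vx t ∧ y = r * (ct.col i).ch.vy t := by
  have hn := h.pos_n
  have hab := abs_le.1 (abs_th_le hy hxy)
  have hex : ∃ i, i < ct.n ∧ th x y ≤ tc ct i ((ct.col i).b : ℝ) := by
    refine ⟨ct.n - 1, by omega, ?_⟩
    rw [tc_last h]; exact hab.2
  classical
  obtain ⟨hi, hle⟩ := Nat.find_spec hex
  set i := Nat.find hex with hidef
  have hge : tc ct i ((ct.col i).a : ℝ) ≤ th x y := by
    rcases Nat.eq_zero_or_pos i with h0 | h0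
    · rw [h0, tc_first h]; exact hab.1
    · obtain ⟨k, hk⟩ : ∃ k, i = k + 1 := ⟨i - 1, by omega⟩
      have hmin := Nat.find_min hex (m := k) (by rw [← hidef]; omega)
      have h1 : ¬ (th x y ≤ tc ct k ((ct.col k).b : ℝ)) := fun hh => hmin ⟨by omega, hh⟩
      have h2 := tc_chain h (i := k) (by omega)
      rw [hk, ← h2]
      exact (not_le.1 h1).le
  obtain ⟨t, ht, hte⟩ := intermediate_value_Icc (a_lt_b h hi).le (tc_cont h hi) ⟨hge, hle⟩
  refine ⟨i, hi, t, ht, ?_⟩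
  have hv := vy_nonneg h hi ht
  exact of_th_eq hy hv.1 hxy hv.2 hte.symm

omit h in
theorem DA.scal_ratio {x y x' y' r r' s s' : ℝ} (hxy : ¬ (x = 0 ∧ y = 0))
    (hxy' : ¬ (x' = 0 ∧ y' = 0)) (hr : 0 < r) (hs : 0 < s)
    (h1 : r * x = r' * x') (h2 : r * y = r' * y') (h3 : s * x = s' * x') (h4 : s * y = s' * y') :
    ∃ ρ > 0, r = ρ * s ∧ r' = ρ * s' := by
  refine ⟨r / s, div_pos hr hs, ?_, ?_⟩
  · field_simp
  · have e1 : (r' * s - r * s') * x' = 0 := by linear_combination r * h3 - s * h1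
    have e2 : (r' * s - r * s') * y' = 0 := by linear_combination r * h4 - s * h2
    have e3 : r' * s - r * s' = 0 := by
      by_contra hne
      exact hxy' ⟨(mul_eq_zero.1 e1).resolve_left hne, (mul_eq_zero.1 e2).resolve_left hne⟩
    field_simp
    linarith

/-- same lift: the same column or consecutive columns -/
theorem sector_unique {i j : ℕ} (hij : i ≤ j) (hj : j < ct.n) {t t' r r' : ℝ}
    (ht : t ∈ Icc ((ct.col i).a : ℝ) (ct.col i).b) (ht' : t' ∈ Icc ((ct.col j).a : ℝ) (ct.col j).b)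
    (hr : 0 < r) (hr' : 0 < r') (hx : r * (ct.col i).ch.vx t = r' * (ct.col j).ch.vx t')
    (hy : r * (ct.col i).ch.vy t = r' * (ct.col j).ch.vy t') :
    (i = j ∧ t = t' ∧ r = r') ∨ (j = i + 1 ∧ t = (ct.col i).b ∧ t' = (ct.col j).a ∧
      ∃ ρ > 0, r = ρ * (((ct.col i).scal (ct.col j)).1 : ℝ) ∧
        r' = ρ * (((ct.col i).scal (ct.col j)).2 : ℝ)) := by
  have hi : i < ct.n := by omega
  have hth : tc ct i t = tc ct j t' := by
    unfold tc
    rw [← th_smul (x := (ct.col i).ch.vx t) hr, ← th_smul (x := (ct.col j).ch.vx t') hr', hx, hy]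
  rcases Nat.eq_or_lt_of_le hij with he | hlt
  · left
    subst he
    have e := tc_inj h hi ht ht' hth
    subst e
    refine ⟨rfl, rfl, ?_⟩
    by_contra hne
    have hne' : r - r' ≠ 0 := sub_ne_zero.2 hne
    apply v_ne h hi t
    constructor
    · have : (r - r') * (ct.col i).ch.vx t = 0 := by linear_combination hx
      exact (mul_eq_zero.1 this).resolve_left hne'
    · have : (r - r') * (ct.col i).ch.vy t = 0 := by linear_combination hy
      exact (mul_eq_zero.1 this).resolve_left hne'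
  · right
    obtain ⟨k, hk⟩ : ∃ k, j = i + 1 + k := ⟨j - (i + 1), by omega⟩
    subst hk
    obtain ⟨g1, g2⟩ := tc_far h (i := i) k hj
    have g3 := tc_le h hi ht (b_mem h hi) ht.2
    have g4 := tc_le h hj (a_mem h hj) ht' ht'.1
    have k0 : k = 0 := by
      by_contra hk0
      have := g2 (Nat.pos_of_ne_zero hk0)
      linarith
    subst k0
    have e1 : tc ct i t = tc ct i ((ct.col i).b : ℝ) := by
      apply le_antisymm g3
      rw [hth]; exact le_trans g1 g4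
    have e2 : tc ct (i + 1 + 0) ((ct.col (i + 1 + 0)).a : ℝ) = tc ct (i + 1 + 0) t' := by
      apply le_antisymm g4
      rw [← hth]; exact le_trans g3 g1
    have e3 := tc_inj h hi ht (b_mem h hi) e1
    have e4 := tc_inj h hj (a_mem h hj) ht' e2
    refine ⟨rfl, e3, e4.symm, ?_⟩
    subst e4
    subst e3
    have hs := scal_pos h (i := i) hj
    obtain ⟨c1, c2⟩ := h.chain i hj
    have s1 : (0 : ℝ) < (((ct.col i).scal (ct.col (i + 1))).1 : ℝ) := by exact_mod_cast hs.1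
    refine scal_ratio (v_ne h hi _) (v_ne h hj _) hr s1 hx hy ?_ ?_
    · rw [vx_cast, vx_cast]; exact_mod_cast c1
    · rw [vy_cast, vy_cast]; exact_mod_cast c2

theorem DA.eq_last {i : ℕ} (hi : i < ct.n) {t : ℝ}
    (ht : t ∈ Icc ((ct.col i).a : ℝ) (ct.col i).b) (he : tc ct i t = 1) :
    i = ct.n - 1 ∧ t = (ct.col i).b := by
  have g3 := tc_le h hi ht (b_mem h hi) ht.2
  have g5 := tc_last h
  have hi2 : i = ct.n - 1 := by
    by_contra hne
    obtain ⟨k, hk⟩ : ∃ k, ct.n - 1 = i + 1 + k := ⟨ct.n - 1 - (i + 1), by omega⟩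
    obtain ⟨g1, -⟩ := tc_far h (i := i) k (by omega)
    have g2 := tc_ab h (i := i + 1 + k) (by omega)
    rw [hk] at g5
    linarith
  refine ⟨hi2, ?_⟩
  apply tc_inj h hi ht (b_mem h hi)
  subst hi2
  rw [he, g5]

theorem DA.eq_first {i : ℕ} (hi : i < ct.n) {t : ℝ}
    (ht : t ∈ Icc ((ct.col i).a : ℝ) (ct.col i).b) (he : tc ct i t = -1) :
    i = 0 ∧ t = (ct.col i).a := by
  have g3 := tc_le h hi (a_mem h hi) ht ht.1
  have g5 := tc_first h
  have hi2 : i = 0 := by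
    by_contra hne
    obtain ⟨k, hk⟩ : ∃ k, i = 0 + 1 + k := ⟨i - 1, by omega⟩
    subst hk
    obtain ⟨g1, -⟩ := tc_far h (i := 0) k hi
    have g2 := tc_ab h (i := 0) h.pos_n
    linarith
  refine ⟨hi2, ?_⟩
  apply tc_inj h hi ht (a_mem h hi)
  subst hi2
  rw [he, g5]

theorem DA.seam_aux {i j : ℕ} (hi : i < ct.n) (hj : j < ct.n) {t t' r r' : ℝ}
    (ht : t ∈ Icc ((ct.col i).a : ℝ) (ct.col i).b) (ht' : t' ∈ Icc ((ct.col j).a : ℝ) (ct.col j).b)
    (hr : 0 < r) (hr' : 0 < r') (hx : r * (ct.col i).ch.vx t = -(r' * (ct.col j).ch.vx t'))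
    (hy : r * (ct.col i).ch.vy t = -(r' * (ct.col j).ch.vy t'))
    (hpos : 0 < (ct.col i).ch.vx t) (hy0 : (ct.col i).ch.vy t = 0)
    (hy0' : (ct.col j).ch.vy t' = 0) :
    i = ct.n - 1 ∧ j = 0 ∧ t = (ct.col i).b ∧ t' = (ct.col j).a ∧
      ∃ ρ > 0, r = ρ * (((ct.col i).scalS (ct.col j)).1 : ℝ) ∧
        r' = ρ * (((ct.col i).scalS (ct.col j)).2 : ℝ) := by
  have hneg : (ct.col j).ch.vx t' < 0 := by
    by_contra hc
    have hc' := not_lt.1 hc
    have h1 : 0 < r * (ct.col i).ch.vx t := mul_pos hr hpos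
    have h2 : 0 ≤ r' * (ct.col j).ch.vx t' := mul_nonneg hr'.le hc'
    linarith
  obtain ⟨i1, i2⟩ := eq_last h hi ht (by unfold tc; rw [hy0]; exact th_pos_axis hpos)
  obtain ⟨j1, j2⟩ := eq_first h hj ht' (by unfold tc; rw [hy0']; exact th_neg_axis hneg)
  refine ⟨i1, j1, i2, j2, ?_⟩
  subst j1 i2 j2 i1
  have hs := scalS_pos h
  obtain ⟨c1, c2⟩ := scalS_eq h
  have s1 : (0 : ℝ) < (((ct.col (ct.n - 1)).scalS (ct.col 0)).1 : ℝ) := by exact_mod_cast hs.1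
  refine scal_ratio (x' := -(ct.col 0).ch.vx (ct.col 0).a)
    (y' := -(ct.col 0).ch.vy (ct.col 0).a)
    (v_ne h hi (((ct.col (ct.n - 1)).b : ℤ) : ℝ)) ?_ hr s1 ?_ ?_ ?_ ?_
  · rintro ⟨h1, h2⟩
    exact v_ne h hj (((ct.col 0).a : ℤ) : ℝ) ⟨neg_eq_zero.1 h1, neg_eq_zero.1 h2⟩
  · rw [hx]; ring
  · rw [hy]; ring
  · rw [vx_cast, vx_cast, mul_neg]; exact_mod_cast c1
  · rw [vy_cast, vy_cast, mul_neg]; exact_mod_cast c2

/-- opposite lifts: last and first column -/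
theorem sector_seam {i j : ℕ} (hi : i < ct.n) (hj : j < ct.n) {t t' r r' : ℝ}
    (ht : t ∈ Icc ((ct.col i).a : ℝ) (ct.col i).b) (ht' : t' ∈ Icc ((ct.col j).a : ℝ) (ct.col j).b)
    (hr : 0 < r) (hr' : 0 < r') (hx : r * (ct.col i).ch.vx t = -(r' * (ct.col j).ch.vx t'))
    (hy : r * (ct.col i).ch.vy t = -(r' * (ct.col j).ch.vy t')) :
    (i = ct.n - 1 ∧ j = 0 ∧ t = (ct.col i).b ∧ t' = (ct.col j).a ∧
      ∃ ρ > 0, r = ρ * (((ct.col i).scalS (ct.col j)).1 : ℝ) ∧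
        r' = ρ * (((ct.col i).scalS (ct.col j)).2 : ℝ)) ∨
    (j = ct.n - 1 ∧ i = 0 ∧ t' = (ct.col j).b ∧ t = (ct.col i).a ∧
      ∃ ρ > 0, r' = ρ * (((ct.col j).scalS (ct.col i)).1 : ℝ) ∧
        r = ρ * (((ct.col j).scalS (ct.col i)).2 : ℝ)) := by
  have hv := vy_nonneg h hi ht
  have hv' := vy_nonneg h hj ht'
  have hy0 : (ct.col i).ch.vy t = 0 := by
    have h1 : 0 ≤ r * (ct.col i).ch.vy t := mul_nonneg hr.le hv.1
    have h2 : 0 ≤ r' * (ct.col j).ch.vy t' := mul_nonneg hr'.le hv'.1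
    have h3 : r * (ct.col i).ch.vy t = 0 := by linarith
    exact (mul_eq_zero.1 h3).resolve_left hr.ne'
  have hy0' : (ct.col j).ch.vy t' = 0 := by
    rw [hy0, mul_zero] at hy
    have h3 : r' * (ct.col j).ch.vy t' = 0 := by linarith
    exact (mul_eq_zero.1 h3).resolve_left hr'.ne'
  have hx0 : (ct.col i).ch.vx t ≠ 0 := fun hh => hv.2 ⟨hh, hy0⟩
  rcases lt_or_gt_of_ne hx0 with hneg | hpos
  · right
    have hpos' : 0 < (ct.col j).ch.vx t' := by
      by_contra hc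
      have hc' := not_lt.1 hc
      have h1 : r * (ct.col i).ch.vx t < 0 := mul_neg_of_pos_of_neg hr hneg
      have h2 : r' * (ct.col j).ch.vx t' ≤ 0 := mul_nonpos_of_nonneg_of_nonpos hr'.le hc'
      linarith
    exact seam_aux h hj hi ht' ht hr' hr (by rw [hx]; ring) (by rw [hy]; ring) hpos' hy0' hy0
  · left
    exact seam_aux h hi hj ht ht' hr hr' hx hy hpos hy0 hy0'

end D

end Oct.N
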